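import Pool.Agent.PFS.Stmts

/-!
# PFS, row ABE: the free abelian subgroup
-/

set_option autoImplicit false

open Matrix Filter Topology

namespace Pool.Agent.PFS.H82

open Pool.Agent.PFS

variable {n : ℕ}

/-- `g` acts on the `w i` by `exp (ψ i)` -/
def Dg {ι : Type} (w : ι → V n) (g : GL (Fin n) ℝ) (ψ : ι → ℝ) : Prop :=
  ∀ i, act g (w i) = Real.exp (ψ i) • w i

theorem Dg.one {ι : Type} (w : ι → V n) : Dg w 1 0 := fun i => by
  rw [CC.act_one, Pi.zero_apply, Real.exp_zero, one_smul]

theorem Dg.mul {ι : Type} {w : ι → V n} {g g' : GL (Fin n) ℝ} {ψ ψ' : ι → ℝ} (h : Dg w g ψ)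
    (h' : Dg w g' ψ') : Dg w (g * g') (ψ + ψ') := fun i => by
  rw [CC.act_mul, h' i, CC.act_smul, h i, smul_smul, Pi.add_apply, Real.exp_add, mul_comm]

theorem Dg.inv {ι : Type} {w : ι → V n} {g : GL (Fin n) ℝ} {ψ : ι → ℝ} (h : Dg w g ψ) :
    Dg w g⁻¹ (-ψ) := fun i => by
  have h1 := congrArg (act g⁻¹) (h i)
  rw [CC.act_inv_act, CC.act_smul] at h1
  rw [Pi.neg_apply, Real.exp_neg]
  conv_rhs => rw [h1]
  rw [smul_smul, inv_mul_cancel₀ (Real.exp_pos _).ne', one_smul]

theorem Dg.pow {ι : Type} {w : ι → V n} {g : GL (Fin n) ℝ} {ψ : ι → ℝ} (h : Dg w g ψ) (m : ℕ) :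
    Dg w (g ^ m) (m • ψ) := by
  induction m with
  | zero => rw [pow_zero, zero_smul]; exact Dg.one w
  | succ m ih => rw [pow_succ, succ_nsmul]; exact ih.mul h

theorem Dg.sum {ι : Type} [Fintype ι] {w : ι → V n} {g : GL (Fin n) ℝ} (h : Dg w g 0) :
    act g (∑ i, w i) = ∑ i, w i := by
  rw [CC.act_sum]
  refine Finset.sum_congr rfl fun i _ => ?_
  rw [h i, Pi.zero_apply, Real.exp_zero, one_smul]

theorem abe (nfn : NfnStmt) (com : ComStmt) (hom : HomStmt) (lin : LinStmt) : AbeStmt := by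
  intro n C Γ hCC k w hw γ χ hγ hact hχ
  have hC : PCone C := hCC.toPCone
  have hp : ∑ i, w i ∈ C := hw.1.sum_mem
  have hN := nfn n C Γ hCC _ hp
  obtain ⟨r, hr, hcomm⟩ := com _ _ hN k γ (fun a b m => by
    have h1 : Dg w (γ a ^ m * γ b * (γ a ^ m)⁻¹ * (γ b)⁻¹)
        (m • χ a + χ b + -(m • χ a) + -χ b) :=
      (((Dg.pow (hact a) m).mul (hact b)).mul (Dg.pow (hact a) m).inv).mul (Dg.inv (hact b))
    have h2 : m • χ a + χ b + -(m • χ a) + -χ b = 0 := by abel
    rw [h2] at h1
    refine ⟨Γ.mul_mem (Γ.mul_mem (Γ.mul_mem (Γ.pow_mem (hγ a) m) (hγ b))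
      (Γ.inv_mem (Γ.pow_mem (hγ a) m))) (Γ.inv_mem (hγ b)), 1, one_pos, ?_⟩
    rw [h1.sum, one_smul])
  obtain ⟨f, hf⟩ := hom _ k (fun a => γ a ^ r) hcomm
  -- the subgroup of the `z` with the expected action
  let S : Subgroup (Multiplicative (Fin k → ℤ)) :=
    { carrier := {z | f z ∈ Γ ∧ Dg w (f z) (fun i => r * ∑ a, (Multiplicative.toAdd z a : ℝ) * χ a i)}
      one_mem' := by
        refine ⟨by rw [map_one]; exact Γ.one_mem, ?_⟩
        have h1 := Dg.one w
        rw [map_one]
        have h2 : (fun i => (r : ℝ) * ∑ a, (Multiplicative.toAdd (1 : Multiplicative (Fin k → ℤ)) a : ℝ) *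
            χ a i) = (0 : Fin (k + 1) → ℝ) := by
          funext i
          simp
        rw [h2]
        exact h1
      mul_mem' := by
        rintro z z' ⟨h1, h2⟩ ⟨h3, h4⟩
        refine ⟨by rw [map_mul]; exact Γ.mul_mem h1 h3, ?_⟩
        have h5 := h2.mul h4
        rw [map_mul]
        have h6 : (fun i => (r : ℝ) * ∑ a, (Multiplicative.toAdd (z * z') a : ℝ) * χ a i) =
            (fun i => (r : ℝ) * ∑ a, (Multiplicative.toAdd z a : ℝ) * χ a i) +
              (fun i => (r : ℝ) * ∑ a, (Multiplicative.toAdd z' a : ℝ) * χ a i) := by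
          funext i
          rw [Pi.add_apply, ← mul_add, ← Finset.sum_add_distrib]
          congr 1
          refine Finset.sum_congr rfl fun a _ => ?_
          rw [toAdd_mul, Pi.add_apply]
          push_cast
          ring
        rw [h6]
        exact h5
      inv_mem' := by
        rintro z ⟨h1, h2⟩
        refine ⟨by rw [map_inv]; exact Γ.inv_mem h1, ?_⟩
        have h5 := h2.inv
        rw [map_inv]
        have h6 : (fun i => (r : ℝ) * ∑ a, (Multiplicative.toAdd z⁻¹ a : ℝ) * χ a i) =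
            -(fun i => (r : ℝ) * ∑ a, (Multiplicative.toAdd z a : ℝ) * χ a i) := by
          funext i
          rw [Pi.neg_apply, ← mul_neg, ← Finset.sum_neg_distrib]
          congr 1
          refine Finset.sum_congr rfl fun a _ => ?_
          rw [toAdd_inv, Pi.neg_apply]
          push_cast
          ring
        rw [h6]
        exact h5 }
  have hgen : ∀ a, Multiplicative.ofAdd (Pi.single a (1 : ℤ) : Fin k → ℤ) ∈ S := by
    intro a
    refine ⟨by rw [hf]; exact Γ.pow_mem (hγ a) r, ?_⟩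
    have h1 := Dg.pow (hact a) r
    rw [hf]
    have h2 : (fun i => (r : ℝ) * ∑ b, (Multiplicative.toAdd
        (Multiplicative.ofAdd (Pi.single a (1 : ℤ) : Fin k → ℤ)) b : ℝ) * χ b i) = r • χ a := by
      funext i
      rw [Finset.sum_eq_single a]
      · simp
      · intro b _ hb
        simp [Pi.single_eq_of_ne hb]
      · intro h
        exact absurd (Finset.mem_univ a) h
    rw [h2]
    exact h1
  have hall : ∀ z : Multiplicative (Fin k → ℤ), z ∈ S := by
    intro z
    have h1 : z = ∏ a, (Multiplicative.ofAdd (Pi.single a (1 : ℤ) : Fin k → ℤ)) ^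
        (Multiplicative.toAdd z a) := by
      apply Multiplicative.toAdd.injective
      rw [toAdd_prod]
      funext b
      rw [Finset.sum_apply, Finset.sum_eq_single b]
      · simp
      · intro a _ ha
        rw [toAdd_zpow]
        simp [Pi.single_eq_of_ne (Ne.symm ha)]
      · intro h
        exact absurd (Finset.mem_univ b) h
    rw [h1]
    exact Subgroup.prod_mem _ fun a _ => Subgroup.zpow_mem _ (hgen a) _
  have hw0 : ∀ i, w i ≠ 0 := fun i => (lin n C hC _ w hw.1).ne_zero i
  have hinj : Function.Injective f := by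
    rw [injective_iff_map_eq_one]
    intro z hz
    have h1 := (hall z).2
    rw [hz] at h1
    have h2 : ∀ i, ∑ a, (Multiplicative.toAdd z a : ℝ) * χ a i = 0 := by
      intro i
      have h3 := h1 i
      rw [CC.act_one] at h3
      have h4 : (Real.exp (r * ∑ a, (Multiplicative.toAdd z a : ℝ) * χ a i) - 1) • w i = 0 := by
        rw [sub_smul, one_smul, ← h3, sub_self]
      rcases smul_eq_zero.1 h4 with h5 | h5
      · rw [sub_eq_zero, Real.exp_eq_one_iff] at h5
        rcases mul_eq_zero.1 h5 with h6 | h6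
        · exact absurd (Nat.cast_eq_zero.1 h6) hr.ne'
        · exact h6
      · exact absurd h5 (hw0 i)
    have h3 : ∑ a, (Multiplicative.toAdd z a : ℝ) • χ a = 0 := by
      funext i
      rw [Finset.sum_apply, Pi.zero_apply, ← h2 i]
      rfl
    have h4 := Fintype.linearIndependent_iff.1 hχ _ h3
    apply Multiplicative.toAdd.injective
    funext a
    have := h4 a
    simpa using this
  refine ⟨f.range, ?_, ⟨(MonoidHom.ofInjective hinj).symm⟩, ?_⟩
  · rintro _ ⟨z, rfl⟩
    exact (hall z).1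
  · rintro _ ⟨z, rfl⟩ y ⟨c, hc, rfl⟩
    refine ⟨fun i => c i * Real.exp (r * ∑ a, (Multiplicative.toAdd z a : ℝ) * χ a i),
      fun i => mul_pos (hc i) (Real.exp_pos _), ?_⟩
    rw [CC.act_sum]
    refine Finset.sum_congr rfl fun i _ => ?_
    rw [CC.act_smul, (hall z).2 i, smul_smul]

end Pool.Agent.PFS.H82
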