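import Pool.Agent.PFS.Stmts

/-!
# PFS, row MIN: bad integer points of minimal spread
-/

set_option autoImplicit false

open Matrix Filter Topology

namespace Pool.Agent.PFS.H82

open Pool.Agent.PFS

variable {n : ℕ}

theorem near_smul {C : Set (V n)} (h : PCone C) {ι : Type} [Fintype ι] {M : ℝ} {w : ι → V n}
    {p : V n} (hp : Near C M w p) {t : ℝ} (ht : 0 < t) : Near C M w (t • p) := by
  obtain ⟨c, hc, h1, h2⟩ := hp
  have e : ∑ i, (t * c i) • w i = t • ∑ i, c i • w i := by
    rw [Finset.smul_sum]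
    exact Finset.sum_congr rfl fun i _ => by rw [smul_smul]
  refine ⟨fun i => t * c i, fun i => mul_pos ht (hc i), ?_, ?_⟩
  · rw [e, ← smul_sub]
    exact h.cl_smul_pos h1 ht
  · rw [e, smul_comm M t p, ← smul_sub]
    exact h.cl_smul_pos h2 ht

theorem pt_add {ι : Type} [Fintype ι] (w : ι → V n) (u : ι → ℤ) (a : ℤ) :
    pt w (fun i => u i + a) = (2 : ℝ) ^ a • pt w u := by
  unfold pt
  rw [Finset.smul_sum]
  refine Finset.sum_congr rfl fun i _ => ?_
  rw [smul_smul, zpow_add₀ two_ne_zero, mul_comm]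

theorem min (aaa : AStmt) (nop : NopStmt) : MinStmt := by
  intro n C hC K hK x w hx hsx hw hsw hlim hne
  have hK0 : 0 < K := by omega
  let i0 : Fin K := ⟨0, hK0⟩
  -- a bad vector exists
  have hbad : ∀ m, ∃ L : ℕ, ∃ u : Fin K → ℤ, ¬ Near C 2 (x m) (pt w u) ∧
      ∀ i j, u i - u j ≤ L := by
    intro m
    by_contra hcon
    push Not at hcon
    apply hne m
    refine aaa n C hC K (by omega) w (x m) hw (hx m) hsw (hsx m) {i0} 2 (by norm_num)
      (Finset.singleton_nonempty i0) ?_ fun u _ => ?_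
    · rw [Finset.card_compl, Finset.card_singleton, Fintype.card_fin]
      omega
    · by_contra hu
      have hfin : (Set.range fun q : Fin K × Fin K => u q.1 - u q.2).Finite := Set.finite_range _
      obtain ⟨B, hB⟩ := hfin.bddAbove
      obtain ⟨i, j, hij⟩ := hcon B.toNat u hu
      have h1 : u i - u j ≤ B := hB ⟨(i, j), rfl⟩
      have h2 : B ≤ (B.toNat : ℤ) := Int.self_le_toNat B
      omega
  classical
  have hmin : ∀ m, ∃ u : Fin K → ℤ, ¬ Near C 2 (x m) (pt w u) ∧
      ∀ (v : Fin K → ℤ) (L : ℤ), (∀ i j, v i - v j ≤ L) → (∃ i j, L < u i - u j) →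
        Near C 2 (x m) (pt w v) := by
    intro m
    obtain ⟨u, hu1, hu2⟩ := Nat.find_spec (hbad m)
    refine ⟨u, hu1, fun v L hv hL => ?_⟩
    obtain ⟨i, j, hij⟩ := hL
    have h1 := hu2 i j
    have h2 := hv i0 i0
    have h3 : L.toNat < Nat.find (hbad m) := by omega
    by_contra hnear
    apply Nat.find_min (hbad m) h3
    refine ⟨v, hnear, fun a b => ?_⟩
    have := hv a b
    omega
  choose u hu1 hu2 using hmin
  refine ⟨u, hu1, hu2, ?_⟩
  -- vectors of bounded spread are eventually near
  have key : ∀ L : ℕ, ∀ᶠ m in atTop, ∀ v : Fin K → ℤ, (∀ i j, v i - v j ≤ L) →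
      Near C 2 (x m) (pt w v) := by
    intro L
    let F : Finset (Fin K → ℤ) := Fintype.piFinset fun _ => Finset.Icc (-(L : ℤ)) L
    have h1 : ∀ᶠ m in atTop, ∀ v ∈ F, Near C 2 (x m) (pt w v) := by
      rw [Filter.eventually_all_finset]
      intro v _
      refine nop n C hC (Fin K) x w (fun _ => pt w v) (pt w v) 2 (by norm_num)
        (hw.pos _ fun i => by positivity) ⟨fun i => (2 : ℝ) ^ (v i), fun i => by positivity, rfl⟩
        hlim tendsto_const_nhds
    filter_upwards [h1] with m hm v hv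
    have h2 : (fun i => v i - v i0) ∈ F := by
      rw [Fintype.mem_piFinset]
      intro i
      rw [Finset.mem_Icc]
      have := hv i i0
      have := hv i0 i
      constructor <;> omega
    have h3 := near_smul hC (hm _ h2) (t := (2 : ℝ) ^ (v i0)) (by positivity)
    rw [← pt_add] at h3
    have h4 : (fun i => v i - v i0 + v i0) = v := funext fun i => by ring
    rwa [h4] at h3
  intro L
  filter_upwards [key L.toNat] with m hm
  by_contra hcon
  push Not at hcon
  apply hu1 m
  refine hm (u m) fun i j => ?_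
  have := hcon i j
  omega

end Pool.Agent.PFS.H82
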