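import Pool.Agent.PFS.Stmts

/-!
# PFS, row NIN: invariance of nearness
-/

set_option autoImplicit false

open Matrix Filter Topology

namespace Pool.Agent.PFS.H82

open Pool.Agent.PFS

variable {n : ℕ}

theorem near_act {C : Set (V n)} {Γ : Subgroup (GL (Fin n) ℝ)} (h : CC C Γ) {ι : Type} [Fintype ι]
    {M : ℝ} {w : ι → V n} {p : V n} {g : GL (Fin n) ℝ} (hg : g ∈ Γ) {s t : ℝ} (hs : 0 < s)
    (ht : 0 < t) (hp : Near C M w p) :
    Near C M (fun i => s • act g (w i)) (t • act g p) := by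
  obtain ⟨c, hc, h1, h2⟩ := hp
  have e : ∑ i, (t * c i / s) • (s • act g (w i)) = t • act g (∑ i, c i • w i) := by
    rw [CC.act_sum, Finset.smul_sum]
    refine Finset.sum_congr rfl fun i _ => ?_
    rw [CC.act_smul, smul_smul, smul_smul, div_mul_cancel₀ _ hs.ne']
  refine ⟨fun i => t * c i / s, fun i => div_pos (mul_pos ht (hc i)) hs, ?_, ?_⟩
  · rw [e, ← smul_sub, ← CC.act_sub]
    exact (h.sact_cl_iff hg ht).2 h1
  · rw [e, smul_comm M t, ← smul_sub, ← CC.act_smul, ← CC.act_sub]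
    exact (h.sact_cl_iff hg ht).2 h2

theorem same_symm {K : ℕ} {w w' : Fin K → V n} (h : Same w w') : Same w' w := by
  obtain ⟨σ, c, hc, hw⟩ := h
  refine ⟨σ.symm, fun i => (c (σ.symm i))⁻¹, fun i => inv_pos.2 (hc _), fun i => ?_⟩
  rw [hw, smul_smul, inv_mul_cancel₀ (hc _).ne', one_smul, σ.apply_symm_apply]

theorem near_same {C : Set (V n)} {K : ℕ} {w w' : Fin K → V n} {p : V n} {M : ℝ}
    (h : Same w w') (hp : Near C M w p) : Near C M w' p := by
  obtain ⟨σ, c, hc, hw⟩ := h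
  obtain ⟨a, ha, h1, h2⟩ := hp
  have e : ∑ j, (a (σ.symm j) * c (σ.symm j)) • w' j = ∑ i, a i • w i := by
    rw [← Equiv.sum_comp σ]
    refine Finset.sum_congr rfl fun i _ => ?_
    rw [σ.symm_apply_apply, hw, smul_smul]
  exact ⟨fun j => a (σ.symm j) * c (σ.symm j), fun j => mul_pos (ha _) (hc _), by rwa [e],
    by rwa [e]⟩

theorem nin : NinStmt := by
  intro n C Γ h K w p M
  have hC : PCone C := h.toPCone
  refine ⟨fun g hg s t hs ht => ⟨fun hp => ?_, near_act h hg hs ht⟩, ?_, ?_, ?_⟩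
  · have h1 := near_act h (Γ.inv_mem hg) (inv_pos.2 hs) (inv_pos.2 ht) hp
    have e1 : (fun i => s⁻¹ • act g⁻¹ (s • act g (w i))) = w := by
      funext i
      rw [CC.act_smul, CC.act_inv_act, smul_smul, inv_mul_cancel₀ hs.ne', one_smul]
    have e2 : t⁻¹ • act g⁻¹ (t • act g p) = p := by
      rw [CC.act_smul, CC.act_inv_act, smul_smul, inv_mul_cancel₀ ht.ne', one_smul]
    rwa [e1, e2] at h1
  · rintro p' ⟨c, hc, h1, h2⟩ h3 h4 hM
    have e : ∑ i, (2 * c i) • w i = (2 : ℝ) • ∑ i, c i • w i := by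
      rw [Finset.smul_sum]
      exact Finset.sum_congr rfl fun i _ => by rw [smul_smul]
    refine ⟨fun i => 2 * c i, fun i => by have := hc i; positivity, ?_, ?_⟩
    · rw [e]
      have := hC.cl_add (hC.cl_smul h1 (t := 2) (by norm_num)) h4
      have e2 : (2 : ℝ) • ((∑ i, c i • w i) - p) + ((2 : ℝ) • p - p') =
          (2 : ℝ) • ∑ i, c i • w i - p' := by
        rw [smul_sub]
        abel
      rwa [e2] at this
    · rw [e]
      have := hC.cl_add (hC.cl_smul h3 (t := 2 * M) (by positivity))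
        (hC.cl_smul h2 (t := 2) (by norm_num))
      have e2 : (2 * M) • (p' - p) + (2 : ℝ) • (M • p - ∑ i, c i • w i) =
          (2 * M) • p' - (2 : ℝ) • ∑ i, c i • w i := by
        rw [smul_sub, smul_sub, smul_smul]
        abel
      rwa [e2] at this
  · rintro M' hM hp ⟨c, hc, h1, h2⟩
    refine ⟨c, hc, h1, ?_⟩
    have := hC.cl_add h2 (hC.cl_smul hp (t := M' - M) (by linarith))
    have e2 : M • p - ∑ i, c i • w i + (M' - M) • p = M' • p - ∑ i, c i • w i := by
      rw [sub_smul]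
      abel
    rwa [e2] at this
  · intro w' hs
    exact ⟨near_same hs, near_same (same_symm hs)⟩

end Pool.Agent.PFS.H82
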